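import Pool.Agent.Lib.MP_0a6a2f_gt.Main

namespace Pool.Agent.Results.MP_0a6a2f_gt.Curve

/-- Covering dimension at most `d`: every finite open cover has a finite open refinement in which
every point lies in at most `d + 1` members. -/
def CovDimLE (X : Type) [TopologicalSpace X] (d : ℕ) : Prop :=
  ∀ (n : ℕ) (U : Fin n → Set X), (∀ i, IsOpen (U i)) → (⋃ i, U i) = Set.univ →
    ∃ (m : ℕ) (V : Fin m → Set X), (∀ j, IsOpen (V j)) ∧ (⋃ j, V j) = Set.univ ∧
      (∀ j, ∃ i, V j ⊆ U i) ∧ ∀ x : X, {j | x ∈ V j}.ncard ≤ d + 1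

/-- A homogeneous continuum of covering dimension exactly one containing two points that no
continuous self-map (in particular no self-homeomorphism) interchanges. -/
theorem result :
    ∃ (X : Type) (_ : MetricSpace X), CompactSpace X ∧ ConnectedSpace X ∧
      CovDimLE X 1 ∧ ¬ CovDimLE X 0 ∧
      (∀ x y : X, ∃ h : X ≃ₜ X, h x = y) ∧
      ∃ x y : X, ∀ h : C(X, X), ¬ (h x = y ∧ h y = x) := by
  obtain ⟨X, tX, h1, h2, h3, ⟨a, b, hab⟩, h5, h6, x, y, h7⟩ := Pool.Agent.Lib.MP_0a6a2f_gt.main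
  let := TopologicalSpace.metrizableSpaceMetric X
  refine ⟨X, this, h1, h2, fun n U hU hc => ?_, fun h => ?_, h6, x, y,
    fun f hf => h7 f f.continuous hf.1 hf.2⟩
  · obtain ⟨m, V, e1, e2, e3, e4⟩ := h5 n U hU hc
    refine ⟨m, V, e1, e2, e3, fun z => ?_⟩
    by_contra hlt
    obtain ⟨i, j, k, hi, hj, hk, hij, hik, hjk⟩ :=
      (Set.two_lt_ncard_iff (Set.toFinite _)).1 (not_le.1 hlt)
    rcases e4 z i j k hi hj hk with h | h | h
    exacts [hij h, hik h, hjk h]
  · obtain ⟨m, V, e1, e2, e3, e4⟩ := h 2 ![{a}ᶜ, {b}ᶜ]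
      (fun i => by fin_cases i <;> simp)
      (Set.eq_univ_of_forall fun z => Set.mem_iUnion.2 (by
        by_cases hz : z = a
        · exact ⟨1, by simpa [hz] using hab⟩
        · exact ⟨0, by simpa using hz⟩))
    obtain ⟨j, hj⟩ := Set.mem_iUnion.1 (e2 ▸ Set.mem_univ a)
    have hcl : IsClopen (V j) := by
      refine ⟨⟨?_⟩, e1 j⟩
      have : (V j)ᶜ = ⋃ k ∈ {k | k ≠ j}, V k := by
        ext z
        simp only [Set.mem_compl_iff, Set.mem_iUnion]
        constructor
        · intro hz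
          obtain ⟨k, hk⟩ := Set.mem_iUnion.1 (e2 ▸ Set.mem_univ z)
          exact ⟨k, fun h => hz (h ▸ hk), hk⟩
        · rintro ⟨k, hk, hz⟩ hz'
          exact hk ((Set.ncard_le_one (Set.toFinite _)).1 (e4 z) k hz j hz')
      rw [this]
      exact isOpen_biUnion fun k _ => e1 k
    have hV := hcl.eq_univ ⟨a, hj⟩
    obtain ⟨i, hi⟩ := e3 j
    rw [hV] at hi
    fin_cases i
    · exact hi (Set.mem_univ a) rfl
    · exact hi (Set.mem_univ b) rfl

end Pool.Agent.Results.MP_0a6a2f_gt.Curve
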