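import Pool.Agent.Lib.PD66.Swap

namespace Pool.Agent.Results.MP_0a6a2f_gt.PeanoDimTwo

/-- Covering dimension at most `d`: every finite open cover has a finite open refinement in which
every point lies in at most `d + 1` members. -/
def CovDimLE (X : Type) [TopologicalSpace X] (d : ℕ) : Prop :=
  ∀ (n : ℕ) (U : Fin n → Set X), (∀ i, IsOpen (U i)) → (⋃ i, U i) = Set.univ →
    ∃ (m : ℕ) (V : Fin m → Set X), (∀ j, IsOpen (V j)) ∧ (⋃ j, V j) = Set.univ ∧
      (∀ j, ∃ i, V j ⊆ U i) ∧ ∀ x : X, {j | x ∈ V j}.ncard ≤ d + 1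

open Pool.Agent.Lib.PD66 in
/-- A homogeneous, locally connected continuum of covering dimension exactly two containing two
points that no self-homeomorphism interchanges. -/
theorem result :
    ∃ (X : Type) (_ : MetricSpace X), CompactSpace X ∧ ConnectedSpace X ∧
      LocallyConnectedSpace X ∧ CovDimLE X 2 ∧ ¬ CovDimLE X 1 ∧
      (∀ x y : X, ∃ h : X ≃ₜ X, h x = y) ∧
      ∃ x y : X, ∀ h : X ≃ₜ X, ¬ (h x = y ∧ h y = x) := by
  refine ⟨X, inferInstance, inferInstance, inferInstance, inferInstance, dim_X,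
    fun h => not_ap_X (ap_of_dim fun n U hU hc => ?_), homog, _, _,
    fun h hh => no_swap h (Classical.arbitrary _) (Classical.arbitrary _) hh.1 hh.2⟩
  obtain ⟨m, V, e1, e2, e3, e4⟩ := h n U hU hc
  refine ⟨m, V, e1, e2, e3, fun x a b c ha hb hc => ?_⟩
  by_contra hn
  push Not at hn
  exact absurd (e4 x) (not_le.2 ((Set.two_lt_ncard_iff (Set.toFinite _)).2
    ⟨a, b, c, ha, hb, hc, hn.1, hn.2.1, hn.2.2⟩))

end Pool.Agent.Results.MP_0a6a2f_gt.PeanoDimTwo
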